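import Pool.Agent.Q297.LC.Par

/-!
# Project LC, job DEV: choice of parameters
-/

set_option autoImplicit false

namespace Pool.Agent.Run7.h760.LC

open Pool.Agent.Q297.LC (exists_root pow_exp fail_bound)

lemma exists_s (K : ℕ) (hK : 1 ≤ K) : ∃ s : ℝ, 1 ≤ s ∧ s ^ 8 = K := by
  have hK' : (1 : ℝ) ≤ K := by exact_mod_cast hK
  refine ⟨(K : ℝ) ^ (1 / 8 : ℝ), Real.one_le_rpow hK' (by norm_num), ?_⟩
  rw [← Real.rpow_natCast, ← Real.rpow_mul (by linarith)]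
  norm_num

lemma rpow_half {K : ℕ} {s : ℝ} (hs : 1 ≤ s) (hsK : s ^ 8 = K) (d : ℕ) :
    (K : ℝ) ^ (d / 2 : ℝ) = s ^ (4 * d) := by
  have hs0 : 0 ≤ s := by linarith
  rw [← hsK, ← Real.rpow_natCast s 8, ← Real.rpow_mul hs0, ← Real.rpow_natCast s (4 * d)]
  congr 1
  push_cast
  ring

lemma rpow_neg_half {K : ℕ} {s : ℝ} (hs : 1 ≤ s) (hsK : s ^ 8 = K) (d : ℕ) :
    (K : ℝ) ^ (-(d / 2 : ℝ)) = 1 / s ^ (4 * d) := by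
  rw [Real.rpow_neg (Nat.cast_nonneg K), rpow_half hs hsK, one_div]

/-- the number `Z` and the basic inequality -/
lemma choose_Z (C₂ e D : ℕ) (hC₂ : 1 ≤ C₂) (X : ℝ) (hX : 1 ≤ X) : ∃ L₀ : ℕ, ∀ L K : ℕ, L₀ ≤ L →
    (Real.log L) ^ (e + 1) ≤ K → ∃ Z : ℕ, 1 ≤ Z ∧ C₂ ≤ Z ∧ C₂ * Real.log L ≤ Z ∧ D * Z ^ e ≤ K ∧
      X ≤ L ∧ 1 ≤ Real.log L := by
  set T : ℝ := D * (2 * C₂) ^ e + X with hT
  refine ⟨⌈Real.exp T⌉₊, fun L K hL hK => ?_⟩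
  have hT1 : 1 ≤ T := by
    have : (0 : ℝ) ≤ D * (2 * C₂) ^ e := by positivity
    linarith
  have h1 : Real.exp T ≤ L := le_trans (Nat.le_ceil _) (by exact_mod_cast hL)
  have hL0 : (0 : ℝ) < L := lt_of_lt_of_le (Real.exp_pos _) h1
  set ℓ := Real.log L with hℓ
  have hTℓ : T ≤ ℓ := by
    rw [hℓ, Real.le_log_iff_exp_le hL0]
    exact h1
  have hℓ1 : 1 ≤ ℓ := hT1.trans hTℓ
  have hC : (1 : ℝ) ≤ C₂ := by exact_mod_cast hC₂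
  have hZ1 : (C₂ : ℝ) * ℓ ≤ (⌈(C₂ : ℝ) * ℓ⌉₊ : ℕ) := Nat.le_ceil _
  have hCl : (C₂ : ℝ) ≤ C₂ * ℓ := by nlinarith
  have hCZ : C₂ ≤ ⌈(C₂ : ℝ) * ℓ⌉₊ := by
    have : (C₂ : ℝ) ≤ (⌈(C₂ : ℝ) * ℓ⌉₊ : ℕ) := hCl.trans hZ1
    exact_mod_cast this
  refine ⟨⌈(C₂ : ℝ) * ℓ⌉₊, hC₂.trans hCZ, hCZ, hZ1, ?_, ?_, hℓ1⟩
  · have h2 : ((⌈(C₂ : ℝ) * ℓ⌉₊ : ℕ) : ℝ) ≤ 2 * C₂ * ℓ := by
      have := Nat.ceil_lt_add_one (show 0 ≤ (C₂ : ℝ) * ℓ by positivity)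
      nlinarith
    have h3 : ((⌈(C₂ : ℝ) * ℓ⌉₊ : ℕ) : ℝ) ^ e ≤ (2 * C₂ * ℓ) ^ e :=
      pow_le_pow_left₀ (by positivity) h2 e
    have h4 : (D : ℝ) * ((⌈(C₂ : ℝ) * ℓ⌉₊ : ℕ) : ℝ) ^ e ≤ K := by
      calc (D : ℝ) * ((⌈(C₂ : ℝ) * ℓ⌉₊ : ℕ) : ℝ) ^ e ≤ D * (2 * C₂ * ℓ) ^ e :=
            mul_le_mul_of_nonneg_left h3 (by positivity)
        _ = (D * (2 * C₂) ^ e) * ℓ ^ e := by rw [mul_pow]; ring
        _ ≤ ℓ * ℓ ^ e := by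
            refine mul_le_mul_of_nonneg_right ?_ (by positivity)
            linarith
        _ = ℓ ^ (e + 1) := by ring
        _ ≤ K := hK
    exact_mod_cast h4
  · have h2 : ℓ ≤ L := (Real.log_le_sub_one_of_pos hL0).trans (by linarith)
    have : (0 : ℝ) ≤ D * (2 * C₂) ^ e := by positivity
    linarith

/-- bounds for the radius `r₁` -/
lemma choose_r {d K Z m₁ : ℕ} (hd : 3 ≤ d) (hK : 1 ≤ K) (h1 : d ^ (8 * d) ≤ K)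
    (h2 : Z ^ (8 * d * m₁) ≤ K) : ∃ r₁ : ℕ, d ≤ r₁ ∧ Z ^ m₁ ≤ r₁ ∧
      K ^ 9 ≤ (2 * r₁) ^ (8 * d) ∧ r₁ ^ (8 * d) ≤ K ^ 9 ∧ r₁ ^ 2 ≤ K := by
  obtain ⟨r₁, hr1, hr2⟩ := exists_root (8 * d) (K ^ 9) (by omega)
  have hK9 : K ≤ K ^ 9 := Nat.le_self_pow (by norm_num) K
  have a1 : d ≤ r₁ := by
    have : d ^ (8 * d) < (r₁ + 1) ^ (8 * d) := by omega
    have := lt_of_pow_lt_pow_left₀ (8 * d) (Nat.zero_le _) this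
    omega
  have a2 : Z ^ m₁ ≤ r₁ := by
    have h3 : (Z ^ m₁) ^ (8 * d) ≤ K := by
      rw [← pow_mul]
      have : m₁ * (8 * d) = 8 * d * m₁ := by ring
      rw [this]
      exact h2
    have : (Z ^ m₁) ^ (8 * d) < (r₁ + 1) ^ (8 * d) := by omega
    have := lt_of_pow_lt_pow_left₀ (8 * d) (Nat.zero_le _) this
    omega
  refine ⟨r₁, a1, a2, ?_, hr1, ?_⟩
  · refine hr2.le.trans (Nat.pow_le_pow_left (by omega) _)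
  · have h3 : (r₁ ^ 2) ^ (4 * d) ≤ K ^ (4 * d) := by
      rw [← pow_mul]
      have : 2 * (4 * d) = 8 * d := by ring
      rw [this]
      exact hr1.trans (Nat.pow_le_pow_right hK (by omega))
    exact le_of_pow_le_pow_left₀ (by omega) (Nat.zero_le _) h3

lemma num_r {d K r₁ : ℕ} {s : ℝ} (hs : 1 ≤ s) (hsK : s ^ 8 = K) (hr : r₁ ^ (8 * d) ≤ K ^ 9) :
    (r₁ : ℝ) ^ d ≤ s ^ 9 := by
  have h1 : ((r₁ : ℝ) ^ d) ^ 8 ≤ (s ^ 9) ^ 8 := by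
    have h2 : ((r₁ : ℝ)) ^ (8 * d) ≤ (K : ℝ) ^ 9 := by exact_mod_cast hr
    rw [← pow_mul, ← pow_mul, mul_comm d 8, mul_comm 9 8, pow_mul s, hsK]
    exact h2
  exact le_of_pow_le_pow_left₀ (by norm_num) (by positivity) h1

lemma num_kappa {d : ℕ} (hd : 3 ≤ d) {s C₁ : ℝ} (hs : 1 ≤ s) (hC : 1 ≤ C₁) :
    C₁ * (1 / s ^ (4 * d) + 1 / s ^ 10) ≤ 2 * C₁ / s ^ 10 := by
  have h1 : s ^ 10 ≤ s ^ (4 * d) := pow_le_pow_right₀ hs (by omega)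
  have h2 : 1 / s ^ (4 * d) ≤ 1 / s ^ 10 := one_div_le_one_div_of_le (by positivity) h1
  calc C₁ * (1 / s ^ (4 * d) + 1 / s ^ 10) ≤ C₁ * (1 / s ^ 10 + 1 / s ^ 10) :=
        mul_le_mul_of_nonneg_left (by linarith) (by linarith)
    _ = 2 * C₁ / s ^ 10 := by ring

lemma num_key {d r₁ Z : ℕ} {s C₁ κ : ℝ} (hs : 1 ≤ s) (hC : 1 ≤ C₁) (hr1 : 1 ≤ r₁)
    (hZ : 1 ≤ Z) (hr : (r₁ : ℝ) ^ d ≤ s ^ 9) (hsZ : 24 * 3 ^ d * C₁ * Z ≤ s) (hκ0 : 0 ≤ κ)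
    (hκ : κ ≤ 2 * C₁ / s ^ 10) :
    ((2 * r₁ + 1 : ℕ) : ℝ) ^ d ≤ 3 ^ d * s ^ 9 ∧
      ((2 * r₁ + 1 : ℕ) : ℝ) ^ d * ((Z + 2) * κ) ≤ 1 / 4 := by
  have hZr : (1 : ℝ) ≤ Z := by exact_mod_cast hZ
  have h1 : ((2 * r₁ + 1 : ℕ) : ℝ) ^ d ≤ 3 ^ d * s ^ 9 := by
    have h2 : ((2 * r₁ + 1 : ℕ) : ℝ) ≤ 3 * r₁ := by
      have : 2 * r₁ + 1 ≤ 3 * r₁ := by omega
      exact_mod_cast this
    calc ((2 * r₁ + 1 : ℕ) : ℝ) ^ d ≤ (3 * (r₁ : ℝ)) ^ d := pow_le_pow_left₀ (by positivity) h2 d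
      _ = 3 ^ d * (r₁ : ℝ) ^ d := mul_pow _ _ _
      _ ≤ 3 ^ d * s ^ 9 := mul_le_mul_of_nonneg_left hr (by positivity)
  refine ⟨h1, ?_⟩
  have hs0 : 0 < s := by linarith
  calc ((2 * r₁ + 1 : ℕ) : ℝ) ^ d * ((Z + 2) * κ)
      ≤ (3 ^ d * s ^ 9) * ((3 * Z) * (2 * C₁ / s ^ 10)) := by
        refine mul_le_mul h1 ?_ (by positivity) (by positivity)
        refine mul_le_mul (by linarith) hκ hκ0 (by positivity)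
    _ = (24 * 3 ^ d * C₁ * Z) / (4 * s) := by
        field_simp
        ring
    _ ≤ s / (4 * s) := div_le_div_of_nonneg_right hsZ (by positivity)
    _ = 1 / 4 := by field_simp

lemma num_L {d K L : ℕ} (hd : 3 ≤ d) {s : ℝ} (hs : 2 ≤ s) (hsK : s ^ 8 = K) (hL : 1 ≤ L)
    (hKL : K ^ 2 ≤ L ^ 3) : 2 * s ^ 10 ≤ (L : ℝ) ^ d := by
  have hLr : (1 : ℝ) ≤ L := by exact_mod_cast hL
  have h1 : s ^ 16 ≤ (L : ℝ) ^ 3 := by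
    have h2 : (K : ℝ) ^ 2 ≤ (L : ℝ) ^ 3 := by exact_mod_cast hKL
    rw [← hsK] at h2
    calc s ^ 16 = (s ^ 8) ^ 2 := by ring
      _ ≤ _ := h2
  have h3 : (L : ℝ) ^ 3 ≤ (L : ℝ) ^ d := pow_le_pow_right₀ hLr hd
  have h4 : (2 : ℝ) ≤ s ^ 6 := by
    have : (2 : ℝ) ^ 6 ≤ s ^ 6 := pow_le_pow_left₀ (by norm_num) hs 6
    linarith
  have h5 : 2 * s ^ 10 ≤ s ^ 6 * s ^ 10 := mul_le_mul_of_nonneg_right h4 (by positivity)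
  have h6 : s ^ 6 * s ^ 10 = s ^ 16 := by ring
  linarith

/-- `4 K^(-1/4)`-type bound for the resolvent part -/
lemma num_res {d h r : ℕ} (hd : 3 ≤ d) {s CA Ld : ℝ} (hs : 1 ≤ s) (hCA : 0 ≤ CA)
    (hLd : 0 < Ld) (hr : 1 ≤ r) (hsr : s ^ 4 ≤ 2 * h * r) :
    Ld * (s ^ 10 / Ld * (CA * s ^ (4 * d) / (r : ℝ) ^ (2 * d))) ≤
      CA * (2 * h) ^ (2 * d) / s ^ 2 := by
  have hrr : (1 : ℝ) ≤ r := by exact_mod_cast hr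
  have hs0 : 0 < s := by linarith
  have h1 : s ^ (8 * d) ≤ (2 * h) ^ (2 * d) * (r : ℝ) ^ (2 * d) := by
    rw [← mul_pow]
    calc s ^ (8 * d) = (s ^ 4) ^ (2 * d) := by rw [← pow_mul]; congr 1; ring
      _ ≤ _ := pow_le_pow_left₀ (by positivity) hsr _
  have h2 : Ld * (s ^ 10 / Ld * (CA * s ^ (4 * d) / (r : ℝ) ^ (2 * d))) =
      CA * (s ^ (4 * d + 10) / (r : ℝ) ^ (2 * d)) := by
    field_simp
    ring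
  rw [h2, mul_div_assoc]
  refine mul_le_mul_of_nonneg_left ?_ hCA
  rw [div_le_div_iff₀ (by positivity) (by positivity)]
  calc s ^ (4 * d + 10) * s ^ 2 = s ^ (4 * d + 12) := by rw [← pow_add]
    _ ≤ s ^ (8 * d) := pow_le_pow_right₀ hs (by omega)
    _ ≤ _ := h1

end Pool.Agent.Run7.h760.LC
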