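import Pool.Agent.Run7.h760.LC.Core
import Pool.Agent.Run7.h760.LC.Num

/-!
# Project LC, job DEV: boxes of side `√K / h` see the same fractions as the torus
-/

set_option autoImplicit false

namespace Pool.Agent.Run7.h760.LC

open Finset Equiv Matrix Q292.LC
open Pool.Agent.Q297.LC (exists_root pow_exp fail_bound)

open Classical in
/-- the resolvent bound for one box, from RES and LAM -/
lemma res_one {d L : ℕ} [NeZero L] (hDME : S_DME) (hRES : S_RES)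
    (e : ℕ → (Fin d → ZMod L) × (Fin d → ZMod L)) (n : ℕ) (δ w Λ ε : ℝ)
    (h0 : 0 ≤ δ) (h1 : δ ≤ 1) (hw0 : 0 ≤ w) (hw1 : w < 1) (hΛ : 0 ≤ Λ) (r : ℕ)
    (B : (ℕ → Bool) → Finset (Fin d → ZMod L) → Prop)
    (hB : ∀ A, Rmeas e n A (fun ω => B ω A)) (z : Fin d → ZMod L)
    (hform : ∀ ω A, Inv (gp e ω n) A → B ω A →
      phz r (Dmg e ω A δ ε n) z ⬝ᵥ ((1 - w • (dg (univ \ A) * TT e ω A δ n))⁻¹ *ᵥ
        phz r (Dmg e ω A δ ε n) z) ≤ Λ) :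
    PE e n δ w (fun ω A => if B ω A then ∑ x ∈ univ \ A,
      ((∑ y ∈ cyc (gp e ω n) x, phz r (Dmg e ω A δ ε n) z y) /
        ((cyc (gp e ω n) x).card : ℝ)) ^ 2 else 0) ≤ (1 - w) * Λ := by
  set φ : (ℕ → Bool) → Finset (Fin d → ZMod L) → (Fin d → ZMod L) → ℝ :=
    fun ω A => if B ω A then phz r (Dmg e ω A δ ε n) z else 0 with hφ
  have h := hRES _ e n δ w Λ B φ h0 h1 hw0 hw1 hΛ hB ?_ ?_ ?_
  · refine le_of_eq_of_le (PE_congr fun ω A => ?_) h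
    by_cases hb : B ω A
    · rw [if_pos hb, if_pos hb]
      have : φ ω A = phz r (Dmg e ω A δ ε n) z := by simp only [hφ]; rw [if_pos hb]
      rw [this]
    · rw [if_neg hb, if_neg hb]
  · intro A ω ω' hω
    have b := hB A ω ω' hω
    have c := hDME _ e n A δ ε ω ω' hω
    simp only at b c
    simp only [hφ]
    rw [c, b]
  · intro ω A a ha
    simp only [hφ]
    by_cases hb : B ω A
    · rw [if_pos hb]
      refine phz_zero r _ z a ?_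
      unfold Dmg
      rw [Finset.mem_filter]
      exact ⟨Finset.mem_univ _, Or.inl ha⟩
    · rw [if_neg hb]
      rfl
  · intro ω A hI hb
    have : φ ω A = phz r (Dmg e ω A δ ε n) z := by simp only [hφ]; rw [if_pos hb]
    rw [this]
    exact hform ω A hI hb

theorem dev (hBTL : S_BTL) (hPEB : S_PEB) (hGDM : S_GDM) (hDME : S_DME) (hRES : S_RES)
    (hLAM : S_LAM) (hDVA : S_DVA) : S_DEV := by
  intro d hd
  obtain ⟨C₁, m₁, hC₁, hB⟩ := hBTL d hd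
  obtain ⟨CA, ε, hCA, hε, hA⟩ := hLAM d hd
  set C₂ : ℕ := 100 * d * C₁ with hC₂
  set e : ℕ := 8 * d * m₁ + 8 * (d + 2) with he
  refine ⟨e + 1, CA, fun h hh η hη => ?_⟩
  have hh1 : 1 ≤ h := hCA.trans hh
  have hhr : (1 : ℝ) ≤ h := by exact_mod_cast hh1
  have hC₁r : (1 : ℝ) ≤ C₁ := by exact_mod_cast hC₁
  have hCAr : (1 : ℝ) ≤ CA := by exact_mod_cast hCA
  obtain ⟨η', hη'0, hη'2, hη'3⟩ : ∃ η' : ℝ, 0 < η' ∧ η' ≤ 1 / 2 ∧ 24 * η' ^ 2 ≤ η / 8 := by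
    refine ⟨min (1 / 2) (η / 96), lt_min (by norm_num) (by positivity), min_le_left _ _, ?_⟩
    have a1 : min (1 / 2) (η / 96) ≤ 1 / 2 := min_le_left _ _
    have a2 : min (1 / 2) (η / 96) ≤ η / 96 := min_le_right _ _
    have a3 : 0 ≤ min (1 / 2) (η / 96) := (lt_min (by norm_num) (by positivity)).le
    nlinarith
  -- the constant
  set c1 : ℝ := (24 * 3 ^ d * C₁) ^ 8 with hc1
  set c2 : ℝ := ((CA : ℝ) * (h : ℝ) ^ d / η') ^ 8 with hc2
  set c3 : ℝ := (24 * CA * (2 * h) ^ (2 * d) / η) ^ 4 with hc3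
  set c4 : ℝ := 32 * C₁ / η with hc4
  have hc10 : 0 ≤ c1 := by positivity
  have hc20 : 0 ≤ c2 := by positivity
  have hc30 : 0 ≤ c3 := by positivity
  have hc40 : 0 ≤ c4 := by positivity
  obtain ⟨D₀, hD₀⟩ := exists_nat_ge (c1 + c2 + c3 + c4)
  set D : ℕ := D₀ + d ^ (8 * d) + 512 + h ^ 2 with hD
  have hDr : (D₀ : ℝ) ≤ D := by
    have : D₀ ≤ D := by omega
    exact_mod_cast this
  obtain ⟨L₀, hL₀⟩ := choose_Z C₂ e D (by
    rw [hC₂]
    have : 0 < 100 * d * C₁ := by positivity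
    omega) (8 * (5 * C₁ + 1) / η + 1) (by
      have : 0 ≤ 8 * (5 * (C₁ : ℝ) + 1) / η := by positivity
      linarith)
  refine ⟨max L₀ 3, fun L K _ hL hK1 hK2 => ?_⟩
  obtain ⟨Z, hZ1, hZC, hZℓ, hDZ, hLX, hℓ1⟩ := hL₀ L K ((le_max_left _ _).trans hL) hK1
  have hL3 : 3 ≤ L := (le_max_right _ _).trans hL
  have hL1 : 1 ≤ L := by omega
  have hLr : (1 : ℝ) ≤ L := by exact_mod_cast hL1
  have hZr : (1 : ℝ) ≤ Z := by exact_mod_cast hZ1
  -- consequences of `D Z^e ≤ K`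
  have hZe1 : 1 ≤ Z ^ e := Nat.one_le_pow _ _ hZ1
  have hDK : D ≤ K := le_trans (Nat.le_mul_of_pos_right _ hZe1) hDZ
  have hDKr : (D : ℝ) ≤ K := by exact_mod_cast hDK
  have hDZr : (D : ℝ) * (Z : ℝ) ^ e ≤ K := by exact_mod_cast hDZ
  have hK1' : 1 ≤ K := by omega
  have hKr : (1 : ℝ) ≤ K := by exact_mod_cast hK1'
  have gen : ∀ (c : ℝ) (a : ℕ), 0 ≤ c → c ≤ D₀ → a ≤ e → c * (Z : ℝ) ^ a ≤ K := by
    intro c a hc0 hc ha
    calc c * (Z : ℝ) ^ a ≤ D * (Z : ℝ) ^ e :=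
          mul_le_mul (hc.trans hDr) (pow_le_pow_right₀ hZr ha) (by positivity) (by positivity)
      _ ≤ K := hDZr
  have hZa : ∀ a : ℕ, a ≤ e → Z ^ a ≤ K := by
    intro a ha
    calc Z ^ a ≤ Z ^ e := Nat.pow_le_pow_right hZ1 ha
      _ ≤ D * Z ^ e := Nat.le_mul_of_pos_left _ (by omega)
      _ ≤ K := hDZ
  obtain ⟨s, hs1, hsK⟩ := exists_s K hK1'
  have hs0 : 0 < s := by linarith
  obtain ⟨r₁, hr₁d, hr₁Z, hr₁a, hr₁b, hr₁c⟩ := choose_r (Z := Z) (m₁ := m₁) hd hK1' (by omega)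
    (hZa _ (by rw [he]; omega))
  have hr₁1 : 1 ≤ r₁ := by omega
  have hsr := num_r hs1 hsK hr₁b
  -- s is large
  have hsZ : 24 * 3 ^ d * C₁ * Z ≤ s := by
    have h1 : (24 * 3 ^ d * C₁ * (Z : ℝ)) ^ 8 ≤ s ^ 8 := by
      rw [hsK, mul_pow]
      refine gen _ 8 hc10 ?_ (by rw [he]; omega)
      linarith
    exact le_of_pow_le_pow_left₀ (by norm_num) hs0.le h1
  have p3d : (1 : ℝ) ≤ 3 ^ d := one_le_pow₀ (by norm_num)
  have hsZ' : 24 * (Z : ℝ) ≤ s := by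
    refine le_trans ?_ hsZ
    have h1 : (1 : ℝ) ≤ 3 ^ d * C₁ := one_le_mul_of_one_le_of_one_le p3d hC₁r
    calc 24 * (Z : ℝ) = 24 * Z * 1 := by ring
      _ ≤ 24 * Z * (3 ^ d * C₁) := mul_le_mul_of_nonneg_left h1 (by linarith)
      _ = 24 * 3 ^ d * C₁ * Z := by ring
  have hs2 : 2 ≤ s := by linarith
  have hLd2 := num_L hd hs2 hsK hL1 hK2
  have hLd0 : (0 : ℝ) < (L : ℝ) ^ d := by positivity
  -- w
  set w : ℝ := 1 - s ^ 10 / (L : ℝ) ^ d with hw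
  have hw12 : 1 / 2 ≤ w := by
    have : s ^ 10 / (L : ℝ) ^ d ≤ 1 / 2 := by
      rw [div_le_iff₀ hLd0]
      linarith
    linarith
  have hw0 : 0 ≤ w := by linarith
  have hw1 : w < 1 := by
    have : 0 < s ^ 10 / (L : ℝ) ^ d := by positivity
    linarith
  have h1w : 1 - w = s ^ 10 / (L : ℝ) ^ d := by rw [hw]; ring
  have hLw : 1 / ((L : ℝ) ^ d * (1 - w)) = 1 / s ^ 10 := by
    rw [h1w]
    field_simp
  -- kappa
  set κ : ℝ := C₁ * ((K : ℝ) ^ (-(d / 2 : ℝ)) + 1 / ((L : ℝ) ^ d * (1 - w))) with hκ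
  have hκ' : κ = C₁ * (1 / s ^ (4 * d) + 1 / s ^ 10) := by
    rw [hκ, rpow_neg_half hs1 hsK, hLw]
  have hκ0 : 0 ≤ κ := by rw [hκ']; positivity
  have hκs : κ ≤ 2 * C₁ / s ^ 10 := by rw [hκ']; exact num_kappa hd hs1 hC₁r
  obtain ⟨hkey1, hkey2⟩ := num_key (d := d) hs1 hC₁r hr₁1 hZ1 hsr hsZ hκ0 hκs
  have hkey : ((2 * r₁ + 1 : ℕ) : ℝ) ^ d * ((Z + 2) * κ) ≤ Real.exp (-1) := by
    have h3 : Real.exp (-1) ≥ 1 / 3 := by
      rw [Real.exp_neg, ge_iff_le, one_div]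
      refine inv_anti₀ (Real.exp_pos 1) ?_
      have := Real.exp_one_lt_d9
      linarith
    linarith
  have hκZ : ((Z : ℝ) + 2) * κ ≤ 1 := by
    have h1 : 1 ≤ ((2 * r₁ + 1 : ℕ) : ℝ) ^ d := one_le_pow₀ (by
      have : 1 ≤ 2 * r₁ + 1 := by omega
      exact_mod_cast this)
    have h3 : 0 ≤ ((Z : ℝ) + 2) * κ := by positivity
    calc ((Z : ℝ) + 2) * κ = 1 * (((Z : ℝ) + 2) * κ) := by ring
      _ ≤ ((2 * r₁ + 1 : ℕ) : ℝ) ^ d * (((Z : ℝ) + 2) * κ) := mul_le_mul_of_nonneg_right h1 h3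
      _ ≤ 1 / 4 := hkey2
      _ ≤ 1 := by norm_num
  have hrL : (Z + 1) * (2 * r₁ + 1) ^ d ≤ L ^ d := by
    have h1 : ((Z : ℝ) + 1) * ((2 * r₁ + 1 : ℕ) : ℝ) ^ d ≤ (L : ℝ) ^ d := by
      calc ((Z : ℝ) + 1) * ((2 * r₁ + 1 : ℕ) : ℝ) ^ d ≤ (2 * Z) * (3 ^ d * s ^ 9) :=
            mul_le_mul (by linarith) hkey1 (by positivity) (by positivity)
        _ = (2 * (3 ^ d * Z)) * s ^ 9 := by ring
        _ ≤ s * s ^ 9 := by
            refine mul_le_mul_of_nonneg_right ?_ (by positivity)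
            refine le_trans ?_ hsZ
            have h5 : 0 ≤ 24 * ((3 : ℝ) ^ d * Z) := by positivity
            calc 2 * ((3 : ℝ) ^ d * Z) ≤ 24 * ((3 : ℝ) ^ d * Z) := by linarith
              _ = 24 * ((3 : ℝ) ^ d * Z) * 1 := by ring
              _ ≤ 24 * ((3 : ℝ) ^ d * Z) * C₁ := mul_le_mul_of_nonneg_left hC₁r h5
              _ = 24 * 3 ^ d * C₁ * Z := by ring
        _ = s ^ 10 := by ring
        _ ≤ (L : ℝ) ^ d := by
            have : 0 ≤ s ^ 10 := by positivity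
            linarith
    exact_mod_cast h1
  have hLZ : (L : ℝ) ^ d ≤ Real.exp Z := by
    rw [pow_exp hL1, Real.exp_le_exp]
    refine le_trans ?_ hZℓ
    refine mul_le_mul_of_nonneg_right ?_ (by linarith)
    have : d ≤ C₂ := by
      rw [hC₂]
      calc d ≤ 100 * d := by omega
        _ ≤ 100 * d * C₁ := Nat.le_mul_of_pos_right _ hC₁
    exact_mod_cast this
  have hC₁Z : C₁ ≤ Z := by
    refine le_trans ?_ hZC
    rw [hC₂]
    exact Nat.le_mul_of_pos_left _ (by positivity)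
  -- K and L
  have hK2' : K ≤ K ^ 2 := Nat.le_self_pow (by norm_num) K
  have hKLd : K ≤ L ^ d := hK2'.trans (hK2.trans (Nat.pow_le_pow_right hL1 hd))
  have hKL2 : K ≤ L ^ 2 := by
    have h1 : K ^ 2 ≤ (L ^ 2) ^ 2 := by
      rw [← pow_mul]
      exact hK2.trans (Nat.pow_le_pow_right hL1 (by norm_num))
    exact le_of_pow_le_pow_left₀ (by norm_num) (Nat.zero_le _) h1
  have hm3 : m₁ * 3 ≤ 8 * d * m₁ := by
    rw [mul_comm m₁ 3]
    exact Nat.mul_le_mul_right _ (by omega)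
  have hZm : Z ^ m₁ ≤ K := hZa _ (by rw [he]; omega)
  have hZL : 8 * Z ^ m₁ ≤ L := by
    have h1 : (8 * Z ^ m₁) ^ 3 ≤ L ^ 3 := by
      calc (8 * Z ^ m₁) ^ 3 = 512 * Z ^ (m₁ * 3) := by rw [mul_pow, ← pow_mul]; norm_num
        _ ≤ D * Z ^ e := Nat.mul_le_mul (by omega) (Nat.pow_le_pow_right hZ1 (by
            rw [he]; omega))
        _ ≤ K := hDZ
        _ ≤ K ^ 2 := hK2'
        _ ≤ L ^ 3 := hK2
    exact le_of_pow_le_pow_left₀ (by norm_num) (Nat.zero_le _) h1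
  obtain ⟨q₀, hq₀⟩ := hB Z hC₁Z L K Z r₁ Z ((Z - 1) / 2) le_rfl le_rfl (by omega) hLZ
    hr₁Z hZL hZm hKLd
  obtain ⟨q₁, hq₁⟩ := hA h hh Z hZ1 η' hη'0 hη'2 L K Z r₁ Z (2 * ((Z - 1) / 2)) le_rfl le_rfl hLZ
    hL3 hKL2 hr₁d hr₁a (hr₁c.trans (Nat.le_mul_of_pos_right _ (by positivity))) (by
      have h1 : ((CA : ℝ) * (Z : ℝ) ^ (d + 2) * (h : ℝ) ^ d / η') ^ 8 =
          c2 * (Z : ℝ) ^ ((d + 2) * 8) := by
        rw [hc2, pow_mul, ← mul_pow]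
        congr 1
        ring
      rw [h1]
      refine gen _ _ hc20 ?_ (by rw [he]; omega)
      linarith)
  refine ⟨max (max q₀ q₁) 2, fun q hq σ hσ δ hδa hδb => ?_⟩
  have hqq₀ : q₀ ≤ q := (le_max_left _ _).trans ((le_max_left _ _).trans hq)
  have hqq₁ : q₁ ≤ q := (le_max_right _ _).trans ((le_max_left _ _).trans hq)
  have hq' : (2 : ℝ) ≤ q := by exact_mod_cast (le_max_right _ _).trans hq
  have hδ0 : 0 ≤ δ := by
    by_contra hcon
    push Not at hcon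
    have := mul_neg_of_neg_of_pos hcon (show (0 : ℝ) < q by linarith)
    linarith
  have hδ1 : δ ≤ 1 := by
    have h1 : δ * 2 ≤ δ * q := mul_le_mul_of_nonneg_left hq' hδ0
    linarith
  -- the side r
  set n := K * (q * ms d L) with hn
  set r := Nat.sqrt K / h with hr
  have hhK : h ≤ Nat.sqrt K := by
    rw [Nat.le_sqrt']
    omega
  have hr1 : 1 ≤ r := Nat.div_pos hhK (by omega)
  have hrL' : r ≤ L := by
    have h1 : Nat.sqrt K ≤ L := by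
      rw [← Nat.sqrt_eq' L]
      exact Nat.sqrt_le_sqrt hKL2
    exact (Nat.div_le_self _ _).trans h1
  have hsr' : s ^ 4 ≤ 2 * h * r := by
    have h1 : Nat.sqrt K < h * (r + 1) := Nat.lt_mul_div_succ _ (by omega)
    have h2 : K < (Nat.sqrt K + 1) ^ 2 := Nat.lt_succ_sqrt' K
    have h3 : Nat.sqrt K + 1 ≤ 2 * h * r := by
      have h7 : h * 1 ≤ h * r := Nat.mul_le_mul_left h hr1
      have h8 : h * (r + 1) = h * r + h := by ring
      have h9 : 2 * h * r = h * r + h * r := by ring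
      omega
    have h4 : K ≤ (2 * h * r) ^ 2 := h2.le.trans (Nat.pow_le_pow_left h3 2)
    have h5 : (s ^ 4) ^ 2 ≤ ((2 * h * r : ℕ) : ℝ) ^ 2 := by
      have : (K : ℝ) ≤ ((2 * h * r : ℕ) : ℝ) ^ 2 := by exact_mod_cast h4
      rw [← hsK] at this
      calc (s ^ 4) ^ 2 = s ^ 8 := by ring
        _ ≤ _ := this
    have h6 := le_of_pow_le_pow_left₀ (by norm_num) (Nat.cast_nonneg _) h5
    push_cast at h6
    exact h6
  refine ⟨hr1, hrL', ?_⟩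
  obtain ⟨b1, b2⟩ := hq₀ q hqq₀ σ hσ δ hδa hδb w hw0 hw1 κ hκ hκZ
  have b4 := fail_bound (d := d) (C₁ := C₁) (L := L) (K := K) (Z := Z) (r := r₁) (κ := κ)
    (by omega) hC₁ hL1 (by rw [hC₂] at hZℓ; push_cast at hZℓ; exact hZℓ) hKLd hrL hκ0 hkey
  set Λ : ℝ := CA * (K : ℝ) ^ (d / 2 : ℝ) / (r : ℝ) ^ (2 * d) with hΛ
  have hΛ0 : 0 ≤ Λ := by
    have : 0 ≤ (K : ℝ) ^ (d / 2 : ℝ) := Real.rpow_nonneg (by linarith) _
    positivity
  have core := dev_core hPEB (ed ∘ σ) n δ w hδ0 hδ1 hw0 hw1 r hr1 hrL'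
    (fun ω A => Gd σ q K Z r₁ Z (2 * ((Z - 1) / 2)) ω A)
    (fun ω A => Dmg (ed ∘ σ) ω A δ ε n) ((1 - w) * Λ) κ ((5 * C₁ + 1) * (1 / (L : ℝ) ^ d)) η'
    (by
      intro ω A hI hG
      obtain ⟨-, -, -, a4, -⟩ := hq₁ q hqq₁ σ hσ δ hδa hδb ω A hG r rfl _ rfl
      refine hDVA d L (by omega) _ A _ r η' hr1 hrL' hI ?_ hη'0.le hη'2 a4
      intro a ha
      unfold Dmg
      rw [Finset.mem_filter]
      exact ⟨Finset.mem_univ _, Or.inl ha⟩)
    (by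
      intro z
      refine res_one hDME hRES (ed ∘ σ) n δ w Λ ε hδ0 hδ1 hw0 hw1 hΛ0 r _ ?_ z ?_
      · exact (hGDM d L σ q K Z r₁ Z (2 * ((Z - 1) / 2))).1
      · intro ω A hI hG
        obtain ⟨-, -, -, -, a5⟩ := hq₁ q hqq₁ σ hσ δ hδa hδb ω A hG r rfl _ rfl
        exact a5 z w hw12 hw1)
    b2 (b1.trans b4)
  refine core.trans ?_
  -- final estimate
  have t1 : (L : ℝ) ^ d * ((1 - w) * Λ) ≤ CA * (2 * h) ^ (2 * d) / s ^ 2 := by
    rw [h1w, hΛ, rpow_half hs1 hsK]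
    exact num_res hd hs1 (by linarith) hLd0 hr1 hsr'
  have t2 : 3 * (CA * (2 * h) ^ (2 * d) / s ^ 2) ≤ η / 8 := by
    have h1 : 24 * CA * (2 * h) ^ (2 * d) / η ≤ s ^ 2 := by
      have h2 : (24 * CA * (2 * h) ^ (2 * d) / η) ^ 4 ≤ (s ^ 2) ^ 4 := by
        have h3 : (s ^ 2) ^ 4 = s ^ 8 := by ring
        rw [h3, hsK]
        have := gen c3 0 hc30 (by linarith) (Nat.zero_le _)
        rw [pow_zero, mul_one] at this
        exact this
      exact le_of_pow_le_pow_left₀ (by norm_num) (by positivity) h2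
    rw [div_le_iff₀ hη] at h1
    rw [← mul_div_assoc, div_le_iff₀ (by positivity)]
    linarith
  have t3 : 2 * κ ≤ η / 8 := by
    have h1 : 1 ≤ s ^ 2 := one_le_pow₀ hs1
    have h2 : (K : ℝ) ≤ s ^ 10 := by
      rw [← hsK]
      exact pow_le_pow_right₀ hs1 (by norm_num)
    have h3 : 32 * (C₁ : ℝ) / η ≤ K := by
      have := gen c4 0 hc40 (by linarith) (Nat.zero_le _)
      rw [pow_zero, mul_one] at this
      exact this
    have h4 : 32 * (C₁ : ℝ) / η ≤ s ^ 10 := h3.trans h2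
    rw [div_le_iff₀ hη] at h4
    have h5 : 2 * C₁ / s ^ 10 ≤ η / 16 := by
      rw [div_le_iff₀ (by positivity)]
      linarith
    linarith
  have t4 : (5 * (C₁ : ℝ) + 1) * (1 / (L : ℝ) ^ d) ≤ η / 8 := by
    have h1 : (L : ℝ) ≤ (L : ℝ) ^ d := le_self_pow₀ hLr (by omega)
    have h2 : 8 * (5 * (C₁ : ℝ) + 1) / η ≤ (L : ℝ) ^ d := by linarith
    rw [div_le_iff₀ hη] at h2
    rw [mul_one_div, div_le_iff₀ hLd0]
    linarith
  linarith

end Pool.Agent.Run7.h760.LC
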