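import Pool.Agent.Q292.LC.Stm7
import Pool.Agent.Q53.LC.Poi
import Pool.Agent.Q68.LC.Bas3

/-!
# Project LC, job DEV: the deviation between boxes and torus, from bounds on the good event
-/

set_option autoImplicit false

namespace Pool.Agent.Run7.h760.LC

open Finset Equiv Matrix Q292.LC

section gen

variable {V : Type} [Fintype V] [DecidableEq V]

lemma PE_congr {e : ℕ → V × V} {n : ℕ} {δ w : ℝ} {F G : (ℕ → Bool) → Finset V → ℝ}
    (h : ∀ ω A, F ω A = G ω A) : PE e n δ w F = PE e n δ w G := by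
  have : F = G := by
    funext ω A
    exact h ω A
  rw [this]

lemma PE_sum (hPEB : S_PEB) (e : ℕ → V × V) (n : ℕ) (δ w : ℝ) (h0 : 0 ≤ δ) (h1 : δ ≤ 1)
    (hw0 : 0 ≤ w) (hw1 : w < 1) {ι : Type} (s : Finset ι)
    (F : ι → (ℕ → Bool) → Finset V → ℝ) :
    PE e n δ w (fun ω A => ∑ i ∈ s, F i ω A) = ∑ i ∈ s, PE e n δ w (F i) := by
  classical
  obtain ⟨-, p2, p3, -, -, -⟩ := hPEB V e n δ w h0 h1 hw0 hw1
  induction s using Finset.induction_on with
  | empty =>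
    have := p3 0 (fun _ _ => (0 : ℝ))
    simp only [mul_zero, zero_mul] at this
    simpa using this
  | insert a s ha ih =>
    rw [Finset.sum_insert ha, ← ih, ← p2]
    refine PE_congr fun ω A => ?_
    rw [Finset.sum_insert ha]

end gen

section torus

variable {d L : ℕ} [NeZero L]

lemma Qb_le_one {r : ℕ} (hr1 : 1 ≤ r) (hr : r ≤ L) (g : Perm (Fin d → ZMod L)) :
    Qb r g ≤ 1 := by
  classical
  unfold Qb
  have hLpos : (0 : ℝ) < (L : ℝ) := by exact_mod_cast Nat.pos_of_ne_zero (NeZero.ne L)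
  have hrpos : (0 : ℝ) < (r : ℝ) := by exact_mod_cast hr1
  rw [div_le_one (by positivity)]
  calc (∑ z : Fin d → ZMod L, ∑ x ∈ box z r, ∑ y ∈ box z r,
        if g.SameCycle x y then (1 : ℝ) else 0)
      ≤ ∑ z : Fin d → ZMod L, ∑ x ∈ box z r, ∑ y ∈ box z r, (1 : ℝ) := by
        refine Finset.sum_le_sum fun z _ => Finset.sum_le_sum fun x _ =>
          Finset.sum_le_sum fun y _ => ?_
        split_ifs <;> norm_num
    _ = (L : ℝ) ^ d * (r : ℝ) ^ (2 * d) := by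
        simp only [Finset.sum_const, Pool.Agent.Q53.LC.card_box hr, nsmul_eq_mul, mul_one,
          Finset.card_univ, Fintype.card_fun, Fintype.card_fin, ZMod.card, Nat.cast_pow]
        ring

lemma Qv_nonneg (g : Perm (Fin d → ZMod L)) : 0 ≤ Qv g := by
  classical
  unfold Qv
  refine div_nonneg (Finset.sum_nonneg fun x _ => Finset.sum_nonneg fun y _ => ?_) (by positivity)
  split_ifs <;> norm_num

lemma phz_zero (r : ℕ) (Dm : Finset (Fin d → ZMod L)) (z a : Fin d → ZMod L) (ha : a ∈ Dm) :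
    phz r Dm z a = 0 := by
  have h : ∀ z', chi r Dm z' a = 0 := by
    intro z'
    unfold chi
    rw [if_neg]
    rw [Finset.mem_sdiff]
    exact fun h => h.2 ha
  unfold phz
  simp [h]

open Classical in
/-- the deviation, from the bounds on the good event -/
lemma dev_core (hPEB : S_PEB) (e : ℕ → (Fin d → ZMod L) × (Fin d → ZMod L)) (n : ℕ) (δ w : ℝ)
    (h0 : 0 ≤ δ) (h1 : δ ≤ 1) (hw0 : 0 ≤ w) (hw1 : w < 1) (r : ℕ) (hr1 : 1 ≤ r) (hrL : r ≤ L)
    (B : (ℕ → Bool) → Finset (Fin d → ZMod L) → Prop)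
    (Dm : (ℕ → Bool) → Finset (Fin d → ZMod L) → Finset (Fin d → ZMod L)) (R₀ κ β η : ℝ)
    (hD : ∀ ω A, Inv (gp e ω n) A → B ω A → Qb r (gp e ω n) ≤ Qv (gp e ω n) +
      3 * ∑ z, ∑ x ∈ univ \ A,
      ((∑ y ∈ cyc (gp e ω n) x, phz r (Dm ω A) z y) / ((cyc (gp e ω n) x).card : ℝ)) ^ 2 +
      24 * η ^ 2 + 2 * A.card / (L : ℝ) ^ d)
    (hR : ∀ z, PE e n δ w (fun ω A => if B ω A then ∑ x ∈ univ \ A,
      ((∑ y ∈ cyc (gp e ω n) x, phz r (Dm ω A) z y) / ((cyc (gp e ω n) x).card : ℝ)) ^ 2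
        else 0) ≤ R₀)
    (hκ : ∀ x, PW e n δ w (fun ω A => x ∈ A ∧ B ω A) ≤ κ)
    (hβ : PW e n δ w (fun ω A => ¬ B ω A) ≤ β) :
    EE n δ (fun ω => Qb r (gp e ω n) - Qv (gp e ω n)) ≤
      3 * ((L : ℝ) ^ d * R₀) + 24 * η ^ 2 + 2 * κ + β := by
  have hLpos : (0 : ℝ) < (L : ℝ) := by exact_mod_cast Nat.pos_of_ne_zero (NeZero.ne L)
  have hLd : (0 : ℝ) < (L : ℝ) ^ d := by positivity
  obtain ⟨p1, p2, p3, p4, p5, -⟩ := hPEB _ e n δ w h0 h1 hw0 hw1
  set S : (Fin d → ZMod L) → (ℕ → Bool) → Finset (Fin d → ZMod L) → ℝ :=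
    fun z ω A => if B ω A then ∑ x ∈ univ \ A,
      ((∑ y ∈ cyc (gp e ω n) x, phz r (Dm ω A) z y) / ((cyc (gp e ω n) x).card : ℝ)) ^ 2
        else 0 with hS
  set M : (Fin d → ZMod L) → (ℕ → Bool) → Finset (Fin d → ZMod L) → ℝ :=
    fun x ω A => if x ∈ A ∧ B ω A then 1 else 0 with hM
  set N : (ℕ → Bool) → Finset (Fin d → ZMod L) → ℝ :=
    fun ω A => if ¬ B ω A then 1 else 0 with hN
  set G : (ℕ → Bool) → Finset (Fin d → ZMod L) → ℝ := fun ω A =>
    3 * ∑ z, S z ω A + (24 * η ^ 2 + ((2 / (L : ℝ) ^ d) * ∑ x, M x ω A + N ω A)) with hG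
  have hSn : ∀ z ω A, 0 ≤ S z ω A := by
    intro z ω A
    simp only [hS]
    split_ifs
    · exact Finset.sum_nonneg fun x _ => sq_nonneg _
    · exact le_rfl
  have hMn : ∀ x ω A, 0 ≤ M x ω A := by
    intro z ω A
    simp only [hM]
    split_ifs <;> norm_num
  have key : PE e n δ w (fun ω _ => Qb r (gp e ω n) - Qv (gp e ω n)) ≤ PE e n δ w G := by
    refine p4 _ _ fun ω A hI => ?_
    simp only [hG]
    by_cases hb : B ω A
    · have e1 := hD ω A hI hb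
      have e2 : ∑ z, S z ω A = ∑ z, ∑ x ∈ univ \ A,
          ((∑ y ∈ cyc (gp e ω n) x, phz r (Dm ω A) z y) / ((cyc (gp e ω n) x).card : ℝ)) ^ 2 := by
        simp only [hS, if_pos hb]
      have e3 : ∑ x, M x ω A = A.card := by
        simp only [hM, hb, and_true]
        simp
      have e4 : N ω A = 0 := by simp only [hN, hb]; simp
      rw [e2, e3, e4]
      have e5 : 2 * (A.card : ℝ) / (L : ℝ) ^ d = 2 / (L : ℝ) ^ d * A.card := by ring
      rw [e5] at e1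
      linarith
    · have e4 : N ω A = 1 := by simp only [hN]; rw [if_pos hb]
      rw [e4]
      have e5 := Qb_le_one hr1 hrL (gp e ω n)
      have e6 := Qv_nonneg (gp e ω n)
      have e7 : 0 ≤ ∑ z, S z ω A := Finset.sum_nonneg fun z _ => hSn z ω A
      have e8 : 0 ≤ ∑ x, M x ω A := Finset.sum_nonneg fun z _ => hMn z ω A
      have e9 : 0 ≤ 2 / (L : ℝ) ^ d * ∑ x, M x ω A := by positivity
      have e10 : 0 ≤ η ^ 2 := sq_nonneg _
      linarith
  have hc : PE e n δ w (fun _ _ => 24 * η ^ 2) = 24 * η ^ 2 := by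
    rw [p1 (fun _ => 24 * η ^ 2), Pool.Agent.Q68.LC.EE_const]
  have hGe : PE e n δ w G = 3 * ∑ z, PE e n δ w (S z) + (24 * η ^ 2 +
      ((2 / (L : ℝ) ^ d) * ∑ x, PE e n δ w (M x) + PE e n δ w N)) := by
    rw [hG, p2 (fun ω A => 3 * ∑ z, S z ω A)
      (fun ω A => 24 * η ^ 2 + ((2 / (L : ℝ) ^ d) * ∑ x, M x ω A + N ω A)),
      p3 3 (fun ω A => ∑ z, S z ω A), PE_sum hPEB e n δ w h0 h1 hw0 hw1,
      p2 (fun _ _ => 24 * η ^ 2) (fun ω A => (2 / (L : ℝ) ^ d) * ∑ x, M x ω A + N ω A), hc,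
      p2 (fun ω A => (2 / (L : ℝ) ^ d) * ∑ x, M x ω A) N,
      p3 (2 / (L : ℝ) ^ d) (fun ω A => ∑ x, M x ω A), PE_sum hPEB e n δ w h0 h1 hw0 hw1]
  rw [← p1 (fun ω => Qb r (gp e ω n) - Qv (gp e ω n))]
  refine key.trans ?_
  rw [hGe]
  have hcard : (Fintype.card (Fin d → ZMod L) : ℝ) = (L : ℝ) ^ d := by
    rw [Fintype.card_fun, Fintype.card_fin, ZMod.card]
    push_cast
    rfl
  have f1 : ∑ z, PE e n δ w (S z) ≤ (L : ℝ) ^ d * R₀ := by
    calc ∑ z, PE e n δ w (S z) ≤ ∑ _z : Fin d → ZMod L, R₀ := Finset.sum_le_sum fun z _ => hR z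
      _ = (L : ℝ) ^ d * R₀ := by
        rw [Finset.sum_const, nsmul_eq_mul, Finset.card_univ, hcard]
  have f2 : ∑ x, PE e n δ w (M x) ≤ (L : ℝ) ^ d * κ := by
    calc ∑ x, PE e n δ w (M x) ≤ ∑ _z : Fin d → ZMod L, κ := by
          refine Finset.sum_le_sum fun x _ => ?_
          have := hκ x
          rw [← p5] at this
          refine le_of_eq_of_le (PE_congr fun ω A => ?_) this
          simp only [hM]
          by_cases h : x ∈ A ∧ B ω A
          · rw [if_pos h, if_pos h]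
          · rw [if_neg h, if_neg h]
      _ = (L : ℝ) ^ d * κ := by
        rw [Finset.sum_const, nsmul_eq_mul, Finset.card_univ, hcard]
  have f3 : PE e n δ w N ≤ β := by
    rw [← p5] at hβ
    refine le_of_eq_of_le (PE_congr fun ω A => ?_) hβ
    simp only [hN]
    by_cases h : ¬ B ω A
    · rw [if_pos h, if_pos h]
    · rw [if_neg h, if_neg h]
  have f4 : (2 / (L : ℝ) ^ d) * ∑ x, PE e n δ w (M x) ≤ 2 * κ := by
    calc (2 / (L : ℝ) ^ d) * ∑ x, PE e n δ w (M x) ≤ (2 / (L : ℝ) ^ d) * ((L : ℝ) ^ d * κ) :=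
          mul_le_mul_of_nonneg_left f2 (by positivity)
      _ = 2 * κ := by field_simp
  linarith

end torus

end Pool.Agent.Run7.h760.LC
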